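import Pool.Agent.Work.MP_2f42a7_al.Upper

set_option autoImplicit false

/-!
# Class counting zeta functions of coronas of complete graphs

For `h ≥ 3` and every number field `K`, the class counting zeta function of the graphical group
scheme of the corona `K_h ∘ K_1` over `O_K` has abscissa of convergence `(h+1)²/2`.  For even `h`
this is not an integer; for example `h = 4` gives `25/2`.
-/

universe u

open NumberField
open scoped NumberField

namespace Pool.Agent.Results.MP_2f42a7_al.CoronaAbscissa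

open Pool.Agent.Work.MP_2f42a7_al

variable {K : Type u} [Field K] [NumberField K] {h : ℕ}

lemma absNorm_pos (I : Ideal (𝓞 K)) (hI : I ≠ ⊥) : 0 < Ideal.absNorm I :=
  Nat.pos_of_ne_zero (fun h => hI (Ideal.absNorm_eq_zero_iff.1 h))

/-- Convergence at `s` in terms of the weighted counts. -/
lemma ccConverges_iff (s : ℂ) : CcConverges (corona h) K s ↔
    Summable fun I : {I : Ideal (𝓞 K) // I ≠ ⊥} =>
      gfun h (((h : ℝ) * h + h) / 2 - 2 * h - s.re) I.1 := by
  unfold CcConverges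
  rw [← summable_norm_iff]
  apply summable_congr
  intro I
  rw [norm_mul, Complex.norm_natCast, Complex.norm_natCast_cpow_of_pos (absNorm_pos I.1 I.2),
    Complex.neg_re]
  exact class_eq_gfun I.1 I.2 s.re

lemma converges_of_lt (hh : 3 ≤ h) (s : ℂ) (hs : ((h : ℝ) + 1) ^ 2 / 2 < s.re) :
    CcConverges (corona h) K s := by
  rw [ccConverges_iff]
  have h1 := gfun_summable (K := K) hh (δ := s.re - ((h : ℝ) + 1) ^ 2 / 2) (by linarith)
  have h2 : ((h : ℝ) + 1) ^ 2 / 2 + (s.re - ((h : ℝ) + 1) ^ 2 / 2) = s.re := by ring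
  rw [h2] at h1
  exact h1

lemma sq_inj {I J : Ideal (𝓞 K)} (hI : I ≠ ⊥) (hJ : J ≠ ⊥) (hIJ : I ^ 2 = J ^ 2) : I = J := by
  classical
  have h1 := congrArg UniqueFactorizationMonoid.normalizedFactors hIJ
  rw [UniqueFactorizationMonoid.normalizedFactors_pow,
    UniqueFactorizationMonoid.normalizedFactors_pow] at h1
  have h2 : UniqueFactorizationMonoid.normalizedFactors I =
      UniqueFactorizationMonoid.normalizedFactors J := by
    ext P
    have h3 := congrArg (Multiset.count P) h1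
    rw [Multiset.count_nsmul, Multiset.count_nsmul] at h3
    omega
  rw [← Ideal.prod_normalizedFactors_eq_self hI, h2, Ideal.prod_normalizedFactors_eq_self hJ]

lemma not_converges_at : ¬ CcConverges (corona h) K ((((h : ℝ) + 1) ^ 2 / 2 : ℝ) : ℂ) := by
  rw [ccConverges_iff, Complex.ofReal_re]
  intro hsum
  apply not_summable_ideals_one K
  -- restrict to the squares
  let sqm : {I : Ideal (𝓞 K) // I ≠ ⊥} → {I : Ideal (𝓞 K) // I ≠ ⊥} := fun I =>
    ⟨I.1 ^ 2, pow_ne_zero 2 I.2⟩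
  have hinj : Function.Injective sqm := by
    intro I J hIJ
    apply Subtype.ext
    have h1 : I.1 ^ 2 = J.1 ^ 2 := congrArg Subtype.val hIJ
    exact sq_inj I.2 J.2 h1
  have h2 := hsum.comp_injective hinj
  refine Summable.of_nonneg_of_le (fun I => Real.rpow_nonneg (Nat.cast_nonneg _) _) (fun I => ?_) h2
  have hN := absNorm_pos I.1 I.2
  have hNR : (0 : ℝ) < (Ideal.absNorm I.1 : ℝ) := by exact_mod_cast hN
  change (Ideal.absNorm I.1 : ℝ) ^ (-(1 : ℝ)) ≤
    (Nat.card (Sol (corona h) (𝓞 K ⧸ I.1 ^ 2)) : ℝ) * (Ideal.absNorm (I.1 ^ 2) : ℝ) ^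
      (((h : ℝ) * h + h) / 2 - 2 * h - ((h : ℝ) + 1) ^ 2 / 2)
  have h3 : ((Ideal.absNorm I.1 : ℝ)) ^ ((5 * h : ℕ) : ℝ) ≤
      (Nat.card (Sol (corona h) (𝓞 K ⧸ I.1 ^ 2)) : ℝ) := by
    rw [Real.rpow_natCast]
    exact_mod_cast card_sol_sq I.1 I.2
  have h4 : ((Ideal.absNorm (I.1 ^ 2) : ℕ) : ℝ) ^
      (((h : ℝ) * h + h) / 2 - 2 * h - ((h : ℝ) + 1) ^ 2 / 2) =
      (Ideal.absNorm I.1 : ℝ) ^ (2 * (((h : ℝ) * h + h) / 2 - 2 * h - ((h : ℝ) + 1) ^ 2 / 2)) := by
    rw [map_pow, Nat.cast_pow, Real.rpow_mul hNR.le]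
    norm_cast
  rw [h4]
  calc (Ideal.absNorm I.1 : ℝ) ^ (-(1 : ℝ))
      = ((Ideal.absNorm I.1 : ℝ)) ^ ((5 * h : ℕ) : ℝ) *
        (Ideal.absNorm I.1 : ℝ) ^
          (2 * (((h : ℝ) * h + h) / 2 - 2 * h - ((h : ℝ) + 1) ^ 2 / 2)) := by
        rw [← Real.rpow_add hNR]
        congr 1
        push_cast
        ring
    _ ≤ _ := mul_le_mul_of_nonneg_right h3 (Real.rpow_nonneg hNR.le _)

/-- **The abscissa of convergence of the class counting zeta function of `G_Γ ⊗ O_K`, where `Γ` is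
the corona `K_h ∘ K_1`, `h ≥ 3`, equals `(h+1)²/2` for every number field `K`; for even `h` it is
not an integer.** -/
theorem result (h : ℕ) (hh : 3 ≤ h) (K : Type u) [Field K] [NumberField K] :
    IsAbscissa (corona h) K (((h : ℝ) + 1) ^ 2 / 2) ∧
      (Even h → ¬ ∃ z : ℤ, IsAbscissa (corona h) K (z : ℝ)) := by
  have habs : IsAbscissa (corona h) K (((h : ℝ) + 1) ^ 2 / 2) := by
    constructor
    · intro σ hσ
      by_contra hlt
      push Not at hlt
      exact not_converges_at (hσ _ (by rw [Complex.ofReal_re]; exact hlt))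
    · intro b hb
      exact hb (fun s hs => converges_of_lt hh s hs)
  refine ⟨habs, ?_⟩
  rintro ⟨m, rfl⟩ ⟨z, hz⟩
  have h1 := habs.unique hz
  have h2 : (((m + m : ℕ) : ℝ) + 1) ^ 2 = 2 * (z : ℝ) := by linarith
  have h3 : (((m + m : ℕ) : ℤ) + 1) ^ 2 = 2 * z := by exact_mod_cast h2
  have h4 : (((m + m : ℕ) : ℤ) + 1) ^ 2 = 2 * (2 * (m : ℤ) ^ 2 + 2 * m) + 1 := by push_cast; ring
  omega

end Pool.Agent.Results.MP_2f42a7_al.CoronaAbscissa
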